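import Mathlib
import Pool.Agent.H892.ZL.Stm

set_option autoImplicit false

/-!
# ZL-RK: the generic point does not go to a singular point
-/

namespace Pool.Agent.H280.ZL

open Pool.Agent.H892.ZL MvPolynomial

/-- Two vectors proportional to the same nonzero vector. -/
theorem prop2_common {n : ℕ} {u v s : Fin n → ℂ} (hs : s ≠ 0) (hu : u ≠ 0) (hv : v ≠ 0)
    (h1 : Prop2 u s) (h2 : Prop2 v s) : ∃ c : ℂ, c ≠ 0 ∧ u = c • v := by
  obtain ⟨k, hk⟩ : ∃ k, s k ≠ 0 := by
    by_contra hcon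
    push Not at hcon
    exact hs (funext hcon)
  have hu' : ∀ i, u i = (u k / s k) * s i := by
    intro i
    have := h1 i k
    field_simp
    linear_combination this
  have hv' : ∀ i, v i = (v k / s k) * s i := by
    intro i
    have := h2 i k
    field_simp
    linear_combination this
  have huk : u k ≠ 0 := by
    intro h0
    apply hu
    funext i
    rw [hu' i, h0]
    simp
  have hvk : v k ≠ 0 := by
    intro h0
    apply hv
    funext i
    rw [hv' i, h0]
    simp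
  refine ⟨u k / v k, div_ne_zero huk hvk, ?_⟩
  funext i
  rw [Pi.smul_apply, smul_eq_mul, hu' i, hv' i]
  field_simp

theorem prop2_symm {n : ℕ} {u v : Fin n → ℂ} (h : Prop2 u v) : Prop2 v u := by
  intro i j
  have := h j i
  linear_combination this

theorem eval_gp (x y : Fin 3 → ℂ) (i : Fin 6) : eval (pt x y) (gp i) = aff x y i := by
  fin_cases i <;> simp [gp, aff, plu, pt]

theorem eval_kap (K : MvPolynomial (Fin 6) ℂ) (x y : Fin 3 → ℂ) :
    eval (pt x y) (kap K) = eval (aff x y) K := by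
  have h : (eval (pt x y)).comp (aeval gp : MvPolynomial (Fin 6) ℂ →ₐ[ℂ] SA).toRingHom
      = eval (aff x y) := by
    apply MvPolynomial.ringHom_ext
    · intro r
      simp
    · intro i
      simp [eval_gp]
  have := congrArg (fun f : MvPolynomial (Fin 6) ℂ →+* ℂ => f K) h
  simpa [kap] using this

theorem aff_ne_zero {x y : Fin 3 → ℂ} (hy : y ≠ 0) : aff x y ≠ 0 := by
  intro h
  apply hy
  have h2 := congrFun h 2
  have h4 := congrFun h 4
  have h5 := congrFun h 5
  simp [aff, plu] at h2 h4 h5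
  funext i
  fin_cases i
  · simpa using h2
  · simpa using h4
  · simpa using h5

theorem aff_mem_cone {K : MvPolynomial (Fin 6) ℂ} {x y : Fin 3 → ℂ} (hy : y ≠ 0)
    (h : eval (pt x y) (kap K) = 0) : aff x y ∈ Cone K := by
  refine ⟨aff_ne_zero hy, ?_, ?_⟩
  · simp [Gp, aff, plu]
    ring
  · rw [← eval_kap]
    exact h

/-- Proportional lines of the chart are equal lines. -/
theorem aff_prop {x y x' y' : Fin 3 → ℂ} {d : ℂ} (h : aff x' y' = d • aff x y) :
    (y' = d • y) ∧ (x' 0 - x 0) * y' 1 = (x' 1 - x 1) * y' 0 ∧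
      (x' 0 - x 0) * y' 2 = (x' 2 - x 2) * y' 0 := by
  have h0 := congrFun h 0
  have h1 := congrFun h 1
  have h2 := congrFun h 2
  have h4 := congrFun h 4
  have h5 := congrFun h 5
  simp [aff, plu] at h0 h1 h2 h4 h5
  have e0 : y' 0 = d * y 0 := by simpa using h2
  have e1 : y' 1 = d * y 1 := by simpa using h4
  have e2 : y' 2 = d * y 2 := by simpa using h5
  refine ⟨?_, ?_, ?_⟩
  · funext i
    fin_cases i
    · simpa using e0
    · simpa using e1
    · simpa using e2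
  · rw [e0, e1] at h0 ⊢
    linear_combination h0
  · rw [e0, e2] at h1 ⊢
    linear_combination h1

theorem t_RK (h1 : S_EXPT) : S_RK := by
  intro K K' Φ Ψ hK hK' hiso
  by_contra hcon
  push Not at hcon
  obtain ⟨S, hS⟩ := hK'.sing
  choose y hy0 hyK using fun t : ℕ => h1 K hK.hom ![(t : ℂ), (t : ℂ) ^ 2, (t : ℂ) ^ 3]
  set v : ℕ → Fin 6 → ℂ := fun t => aff ![(t : ℂ), (t : ℂ) ^ 2, (t : ℂ) ^ 3] (y t) with hv
  have hvC : ∀ t, v t ∈ Cone K := fun t => aff_mem_cone (hy0 t) (hyK t)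
  have hns : ∀ t, ¬ SmoothAt K' (Φ (v t)) := fun t => hcon _ _ (hy0 t) (hyK t)
  have hex : ∀ t, ∃ s ∈ S, s ≠ 0 ∧ Prop2 (Φ (v t)) s := fun t =>
    hS _ (hiso.maps _ (hvC t)) (hns t)
  choose s hsS hs0 hsP using hex
  -- proportionality
  have key : ∀ t t', s t = s t' → ∃ d : ℂ, v t' = d • v t := by
    intro t t' hst
    have hP1 : Prop2 (Φ (v t)) (s t) := hsP t
    have hP2 : Prop2 (Φ (v t')) (s t) := by
      rw [hst]
      exact hsP t'
    obtain ⟨c, hc0, hc⟩ := prop2_common (hs0 t) (hiso.maps _ (hvC t')).1 (hiso.maps _ (hvC t)).1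
      hP2 hP1
    have hΨ : Prop2 (Ψ (Φ (v t'))) (Ψ (Φ (v t))) := by
      have := hiso.compat' (Φ (v t)) (hiso.maps _ (hvC t)) c hc0
      rwa [← hc] at this
    have ha : Ψ (Φ (v t')) ≠ 0 := (hiso.maps' _ (hiso.maps _ (hvC t'))).1
    have hb : Ψ (Φ (v t)) ≠ 0 := (hiso.maps' _ (hiso.maps _ (hvC t))).1
    have i1 : Prop2 (Ψ (Φ (v t'))) (v t') := hiso.inv _ (hvC t')
    have i2 : Prop2 (Ψ (Φ (v t))) (v t) := hiso.inv _ (hvC t)
    obtain ⟨c1, hc1, e1⟩ := prop2_common (s := Ψ (Φ (v t'))) ha (hvC t').1 ha (prop2_symm i1)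
      (fun i j => by ring)
    obtain ⟨c2, hc2, e2⟩ := prop2_common (s := Ψ (Φ (v t))) hb ha (hvC t).1 hΨ (prop2_symm i2)
    exact ⟨c1 * c2, by rw [e1, e2, smul_smul]⟩
  -- pigeonhole
  have hinf : ∃ s0 ∈ S, (s ⁻¹' {s0}).Infinite := by
    by_contra hfin
    push Not at hfin
    have hfin' : ∀ s0 ∈ S, (s ⁻¹' {s0}).Finite := fun s0 h => hfin s0 h
    have : (Set.univ : Set ℕ) ⊆ ⋃ s0 ∈ S, s ⁻¹' {s0} := by
      intro t _
      simp only [Set.mem_iUnion]
      exact ⟨s t, hsS t, rfl⟩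
    have hU : (⋃ s0 ∈ S, s ⁻¹' {s0}).Finite :=
      Set.Finite.biUnion (Finset.finite_toSet S) hfin'
    exact Set.infinite_univ (hU.subset this)
  obtain ⟨s0, -, hs0inf⟩ := hinf
  obtain ⟨F, hFsub, hFcard⟩ := hs0inf.exists_subset_card_eq 3
  obtain ⟨a, b, c, hab, hac, hbc, hF⟩ := Finset.card_eq_three.mp hFcard
  have ha : s a = s0 := hFsub (by rw [hF]; simp)
  have hb : s b = s0 := hFsub (by rw [hF]; simp)
  have hc : s c = s0 := hFsub (by rw [hF]; simp)
  obtain ⟨d1, hd1⟩ := key b a (by rw [ha, hb])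
  obtain ⟨d2, hd2⟩ := key c a (by rw [ha, hc])
  obtain ⟨-, p1, p2⟩ := aff_prop hd1
  obtain ⟨-, q1, q2⟩ := aff_prop hd2
  simp at p1 p2 q1 q2
  have hab' : (a : ℂ) - b ≠ 0 := sub_ne_zero.mpr (by exact_mod_cast hab)
  have hac' : (a : ℂ) - c ≠ 0 := sub_ne_zero.mpr (by exact_mod_cast hac)
  have hbc' : (b : ℂ) - c ≠ 0 := sub_ne_zero.mpr (by exact_mod_cast hbc)
  have r1 : y a 1 = (a + b) * y a 0 := by
    apply mul_left_cancel₀ hab'
    linear_combination p1
  have r2 : y a 1 = (a + c) * y a 0 := by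
    apply mul_left_cancel₀ hac'
    linear_combination q1
  have r0 : y a 0 = 0 := by
    apply mul_left_cancel₀ hbc'
    linear_combination r2 - r1
  have r1' : y a 1 = 0 := by rw [r1, r0, mul_zero]
  have r2' : y a 2 = 0 := by
    apply mul_left_cancel₀ hab'
    rw [r0] at p2
    linear_combination p2
  apply hy0 a
  funext i
  fin_cases i
  · exact r0
  · exact r1'
  · exact r2'

end Pool.Agent.H280.ZL
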